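import Pool.Agent.E8helper61.EF.Stm

/-!
# Project EF, piece NEAR: far elements of shifted down-sets with the `k`-wise union property
-/

set_option autoImplicit false

open Finset

namespace Pool.Agent.E8helper68.EF

open Pool.Agent.E8helper61.EF

/-- `k` disjoint `s`-subsets of a large set. -/
theorem exists_disj {n : ℕ} (k s : ℕ) (W : Finset (Fin n)) (hW : k * s ≤ W.card) :
    ∃ Y : Fin k → Finset (Fin n), (∀ j, Y j ⊆ W) ∧ (∀ j, (Y j).card = s) ∧
      (univ.biUnion Y).card = k * s := by
  classical
  have hc : Fintype.card (Fin k × Fin s) ≤ Fintype.card W := by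
    rw [Fintype.card_prod, Fintype.card_fin, Fintype.card_fin, Fintype.card_coe]
    exact hW
  obtain ⟨e⟩ := Function.Embedding.nonempty_of_card_le hc
  have hinj : Function.Injective (fun x : Fin k × Fin s => ((e x : W) : Fin n)) :=
    Subtype.val_injective.comp e.injective
  refine ⟨fun j => univ.image (fun i : Fin s => ((e (j, i) : W) : Fin n)), ?_, ?_, ?_⟩
  · intro j x hx
    rw [mem_image] at hx
    obtain ⟨i, -, rfl⟩ := hx
    exact (e (j, i)).2
  · intro j
    rw [card_image_of_injective]
    · simp
    · intro i i' h
      have := hinj h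
      exact (Prod.mk.inj this).2
  · have h : (univ.biUnion fun j : Fin k => univ.image (fun i : Fin s => ((e (j, i) : W) : Fin n))) =
        (univ : Finset (Fin k × Fin s)).image (fun x => ((e x : W) : Fin n)) := by
      ext x
      simp only [mem_biUnion, mem_image, mem_univ, true_and]
      constructor
      · rintro ⟨j, i, h⟩
        exact ⟨(j, i), h⟩
      · rintro ⟨⟨j, i⟩, h⟩
        exact ⟨j, i, h⟩
    rw [h, card_image_of_injective _ hinj]
    simp

theorem card_near {n M : ℕ} (hM : M ≤ n) : M ≤ (near M (univ : Finset (Fin n))).card := by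
  have h : (univ : Finset (Fin M)).map (Fin.castLEEmb hM) ⊆ near M (univ : Finset (Fin n)) := by
    intro x hx
    rw [mem_map] at hx
    obtain ⟨i, -, rfl⟩ := hx
    unfold near
    rw [mem_filter]
    exact ⟨mem_univ _, i.2⟩
  have := card_le_card h
  rwa [card_map, card_univ, Fintype.card_fin] at this

theorem nearT : NearStatement := by
  classical
  intro hMove n k d M A hk hkd hdM hMn hDown hShift hKU
  have hnear : ∀ B : Finset (Fin n), B \ far M B = near M B := by
    intro B
    ext x
    unfold far near
    simp only [mem_sdiff, mem_filter, not_and, not_le]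
    constructor
    · rintro ⟨h1, h2⟩
      exact ⟨h1, h2 h1⟩
    · rintro ⟨h1, h2⟩
      exact ⟨h1, fun _ => h2⟩
  constructor
  · intro B hB
    by_contra hcon
    push Not at hcon
    obtain ⟨X, hXB, hXc⟩ := exists_subset_card_eq (show d / k + 1 ≤ (far M B).card from hcon)
    have hXfar : ∀ x ∈ X, M ≤ x.val := by
      intro x hx
      exact (mem_filter.mp (hXB hx)).2
    have hXA : X ∈ A := hDown B hB X (hXB.trans (filter_subset _ _))
    have hk1 : k * (d / k) ≤ d := Nat.mul_div_le d k
    have hcard : k * (d / k + 1) ≤ (near M (univ : Finset (Fin n))).card := by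
      have h1 := card_near hMn
      have h2 : k * (d / k + 1) = k * (d / k) + k := by ring
      omega
    obtain ⟨Y, hY1, hY2, hY3⟩ := exists_disj k (d / k + 1) _ hcard
    have hYA : ∀ j, Y j ∈ A := by
      intro j
      have h := hMove n A hDown hShift X hXA X (Y j) (Subset.refl _) (by rw [hY2, hXc])
        (by rw [sdiff_self]; exact disjoint_bot_right) (by
          intro y hy x hx
          have h1 : y.val < M := (mem_filter.mp (hY1 j hy)).2
          have h2 := hXfar x hx
          exact Fin.lt_def.mpr (by omega))
      rw [sdiff_self] at h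
      simpa using h
    have h := hKU Y hYA
    rw [hY3] at h
    have h3 : d < k * (d / k + 1) := Nat.lt_mul_div_succ d (by omega)
    omega
  · intro s hs f hf
    have hf' : ∀ j, ∃ B, B ∈ A ∧ (far M B).card = s ∧ near M B = f j := by
      intro j
      have h := hf j
      unfold NF at h
      rw [mem_image] at h
      obtain ⟨B, hB, hB2⟩ := h
      rw [mem_filter] at hB
      exact ⟨B, hB.1, hB.2, hB2⟩
    choose B hB1 hB2 hB3 using hf'
    have hfA : ∀ j, f j ∈ A := by
      intro j
      rw [← hB3 j]
      exact hDown _ (hB1 j) _ (filter_subset _ _)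
    have hU := hKU f hfA
    have hks : k * s ≤ d := (Nat.mul_le_mul_left k hs).trans (Nat.mul_div_le d k)
    have hW : k * s ≤ (near M (univ : Finset (Fin n)) \ univ.biUnion f).card := by
      have h1 := card_near hMn
      have h2 := le_card_sdiff (univ.biUnion f) (near M (univ : Finset (Fin n)))
      omega
    obtain ⟨Y, hY1, hY2, hY3⟩ := exists_disj k s _ hW
    have hYd : ∀ j, ∀ y ∈ Y j, y.val < M ∧ y ∉ univ.biUnion f := by
      intro j y hy
      have h := mem_sdiff.mp (hY1 j hy)
      exact ⟨(mem_filter.mp h.1).2, h.2⟩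
    have hg : ∀ j, f j ∪ Y j ∈ A := by
      intro j
      have h := hMove n A hDown hShift (B j) (hB1 j) (far M (B j)) (Y j) (filter_subset _ _)
        (by rw [hY2, hB2]) (by
          rw [hnear, hB3, disjoint_left]
          intro y hy hy2
          exact (hYd j y hy).2 (mem_biUnion.mpr ⟨j, mem_univ _, hy2⟩)) (by
          intro y hy x hx
          have h1 := (hYd j y hy).1
          have h2 : M ≤ x.val := (mem_filter.mp hx).2
          exact Fin.lt_def.mpr (by omega))
      rwa [hnear, hB3] at h
    have h := hKU (fun j => f j ∪ Y j) hg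
    have he : (univ.biUnion fun j => f j ∪ Y j) = univ.biUnion f ∪ univ.biUnion Y := by
      ext x
      simp only [mem_biUnion, mem_union, mem_univ, true_and]
      constructor
      · rintro ⟨j, h | h⟩
        · exact Or.inl ⟨j, h⟩
        · exact Or.inr ⟨j, h⟩
      · rintro (⟨j, h⟩ | ⟨j, h⟩)
        · exact ⟨j, Or.inl h⟩
        · exact ⟨j, Or.inr h⟩
    rw [he, card_union_of_disjoint, hY3] at h
    · exact h
    · rw [disjoint_left]
      intro x hx hx2
      obtain ⟨j, -, hj⟩ := mem_biUnion.mp hx2
      exact (hYd j x hj).2 hx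

end Pool.Agent.E8helper68.EF
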